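import Pool.Agent.H497R2.FB_KSumQ

/-!
Dirichlet polynomials over the values of a perturbed monomial, when the length is only a power of
the logarithm. Adaptation of `Pool/Agent/H497R2/FB_KSumQ.lean`.
-/

set_option autoImplicit false

namespace Pool.Agent.Y889.SK

open Finset Polynomial
open Pool.Agent.H469R2.NK (e)
open Pool.Agent.H442R2.EHI
open Pool.Agent.H300R2.BH
open Pool.Agent.H300R2.FB
open Pool.Agent.H497R2.FB

/-- Dirichlet polynomial over the values of a perturbed monomial: arguments up to a power of `log x`. -/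
theorem ksumS (hv : VdcPoly) (j : ℕ) (hj : 1 ≤ j) (E1 E2 U : ℕ) :
    ∃ (E4 A0 x0 : ℕ), ∀ x : ℕ, x0 ≤ x →
    ∀ K K1 q r : ℕ, Real.log x ^ A0 ≤ K → K ≤ x → K1 ≤ K → (K : ℝ) ≤ K1 * Real.log x ^ E2 → 1 ≤ q →
    (q : ℝ) ≤ Real.log x ^ E1 → ∀ b : Fin (j - 1) → ℝ,
    (∀ i, |b i| * Real.log x ≤ (K1 : ℝ) ^ (j - 1 - (i : ℕ))) →
    ∀ ξ : ℝ, Real.log x ^ E4 ≤ |ξ| → |ξ| ≤ (K : ℝ) ^ 2 →
    ‖∑ k ∈ (Ioc K1 K).filter (fun k => k % q = r),
      (((pw j b k) ^ (-(1 / 2) : ℝ) : ℝ) : ℂ) * e (ξ * Real.log (pw j b k))‖ ^ 2 ≤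
      ((K : ℝ) ^ 2 / (K : ℝ) ^ j) / Real.log x ^ U := by
  set M : ℕ := 4 with hM
  obtain ⟨κ, hκ, η, hη, C, hC, hv⟩ := hv j hj M
  set V : ℕ := U + E2 * j + 1 with hV
  obtain ⟨X6, hX6⟩ := log_ge (6 * C + 2 * j + 2 ^ j / κ + 2)
  set W : ℕ := ⌈((V + 2 : ℕ) : ℝ) * (2 / η)⌉₊ with hW
  refine ⟨V + 2, 2 * (E1 + E2 + 1) + W, 8 + X6, ?_⟩
  intro x hx K K1 q r hLK hKx hK1K hKK1 hq hqL b hb ξ hξ1 hξ2
  have hx8 : 8 ≤ x := by omega
  have c6 := hX6 x (by omega)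
  set L := Real.log x with hL
  have hx8' : (8 : ℝ) ≤ x := by exact_mod_cast hx8
  have hx0 : (0 : ℝ) < x := by linarith
  have hj0 : (0 : ℝ) ≤ j := Nat.cast_nonneg _
  have hκ2 : 0 < 2 ^ j / κ := by positivity
  have hL2 : 2 ≤ L := by linarith
  have hLj : 2 * (j : ℝ) ≤ L := by linarith
  have hLC : 6 * C ≤ L := by linarith
  have hLκ : 2 ^ j ≤ κ * L := by
    have h1 : 2 ^ j / κ ≤ L := by linarith
    rw [div_le_iff₀ hκ] at h1
    linarith
  have hL0 : 0 < L := by linarith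
  have hL1 : 1 ≤ L := by linarith
  have hK0 : (0 : ℝ) < K := lt_of_lt_of_le (by positivity) hLK
  have hLK2 : L ^ (2 * (E1 + E2 + 1)) ≤ K := by
    refine le_trans ?_ hLK
    exact pow_le_pow_right₀ hL1 (by omega)
  have hLKW : L ^ W ≤ K := by
    refine le_trans ?_ hLK
    exact pow_le_pow_right₀ hL1 (by omega)
  have c2 : 2 * L ^ (E1 + E2) ≤ K := by
    refine le_trans ?_ hLK2
    calc 2 * L ^ (E1 + E2) ≤ L * L ^ (E1 + E2) := mul_le_mul_of_nonneg_right hL2 (by positivity)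
      _ = L ^ (E1 + E2 + 1) := by rw [pow_succ]; ring
      _ ≤ L ^ (2 * (E1 + E2 + 1)) := pow_le_pow_right₀ hL1 (by omega)
  have c4 : 2 * L ^ (E1 + E2) ≤ (K : ℝ) ^ (1 / 2 : ℝ) := by
    have h1 : (L ^ (2 * (E1 + E2 + 1))) ^ (1 / 2 : ℝ) ≤ (K : ℝ) ^ (1 / 2 : ℝ) :=
      Real.rpow_le_rpow (by positivity) hLK2 (by norm_num)
    have h2 : (L ^ (2 * (E1 + E2 + 1))) ^ (1 / 2 : ℝ) = L ^ (E1 + E2 + 1) := by
      rw [← Real.rpow_natCast L (2 * (E1 + E2 + 1)), ← Real.rpow_mul hL0.le,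
        ← Real.rpow_natCast L (E1 + E2 + 1)]
      congr 1
      push_cast
      ring
    rw [h2] at h1
    refine le_trans ?_ h1
    rw [pow_succ, mul_comm]
    exact mul_le_mul_of_nonneg_left hL2 (by positivity)
  have c5 : 6 * C * L ^ (V + 1) ≤ (K : ℝ) ^ (η / 2) := by
    have h0 : L ^ (((V + 2 : ℕ) : ℝ) * (2 / η)) ≤ K := by
      refine le_trans ?_ hLKW
      rw [← Real.rpow_natCast L W]
      exact Real.rpow_le_rpow_of_exponent_le hL1 (Nat.le_ceil _)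
    have h1 : (L ^ (((V + 2 : ℕ) : ℝ) * (2 / η))) ^ (η / 2) ≤ (K : ℝ) ^ (η / 2) :=
      Real.rpow_le_rpow (by positivity) h0 (by positivity)
    have h2 : (L ^ (((V + 2 : ℕ) : ℝ) * (2 / η))) ^ (η / 2) = L ^ (V + 2) := by
      rw [← Real.rpow_mul hL0.le, ← Real.rpow_natCast L (V + 2)]
      congr 1
      field_simp
    rw [h2] at h1
    refine le_trans ?_ h1
    calc 6 * C * L ^ (V + 1) ≤ L * L ^ (V + 1) := mul_le_mul_of_nonneg_right hLC (by positivity)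
      _ = L ^ (V + 2) := by rw [pow_succ L (V + 1)]; ring
  have hKx' : (K : ℝ) ≤ x := by exact_mod_cast hKx
  have hKnn : 0 ≤ ((K : ℝ) ^ 2 / (K : ℝ) ^ j) / L ^ U := by positivity
  rcases le_or_gt q r with hqr | hqr
  · -- empty sum
    have : (Ioc K1 K).filter (fun k => k % q = r) = ∅ := by
      rw [filter_eq_empty_iff]
      intro k _ hk
      have := Nat.mod_lt k (show q > 0 by omega)
      omega
    rw [this, sum_empty, norm_zero]
    simpa using hKnn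
  have hK1q : 2 * (q : ℝ) ≤ K1 := by
    have h1 : 2 * L ^ (E1 + E2) ≤ (K1 : ℝ) * L ^ E2 := c2.trans hKK1
    rw [pow_add, ← mul_assoc] at h1
    have h2 := le_of_mul_le_mul_right h1 (by positivity : 0 < L ^ E2)
    linarith
  have hK1q' : 2 * q ≤ K1 := by exact_mod_cast hK1q
  have hK10 : (0 : ℝ) < K1 := by
    have : (1 : ℝ) ≤ q := by exact_mod_cast hq
    linarith
  have hq1 : (1 : ℝ) ≤ q := by exact_mod_cast hq
  have hrq : (r : ℝ) < q := by exact_mod_cast hqr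
  have hr0 : (0 : ℝ) ≤ r := Nat.cast_nonneg _
  set A := (K1 - r) / q with hA
  set B := (K - r) / q with hB
  have hAB : A ≤ B := Nat.div_le_div_right (by omega)
  have hA1 : 1 ≤ A := by
    rw [hA, Nat.le_div_iff_mul_le (by omega)]; omega
  have hBK : B ≤ K := (Nat.div_le_self _ _).trans (Nat.sub_le _ _)
  have hqB : q * B + r ≤ K := by
    have := Nat.mul_div_le (K - r) q
    rw [← hB] at this
    omega
  have hqA : K1 < q * (A + 1) + r := by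
    have := Nat.lt_mul_div_succ (K1 - r) (show 0 < q by omega)
    rw [← hA] at this
    omega
  have hqA' : (K1 : ℝ) < q * ((A : ℝ) + 1) + r := by exact_mod_cast hqA
  -- rewriting the sum
  have hsum : ∑ k ∈ (Ioc K1 K).filter (fun k => k % q = r),
      (((pw j b k) ^ (-(1 / 2) : ℝ) : ℝ) : ℂ) * e (ξ * Real.log (pw j b k)) =
      ∑ n ∈ Ioc A B, (((fun n : ℕ => (pw j b ((q : ℝ) * n + r)) ^ (-(1 / 2) : ℝ)) n : ℝ) : ℂ) *
        (fun n : ℕ => gQ j b q r ξ n) n := by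
    refine Finset.sum_nbij' (fun k => k / q) (fun j => q * j + r) ?_ ?_ ?_ ?_ ?_
    · intro k hk
      rw [mem_filter, mem_Ioc] at hk
      have h1 := Nat.div_add_mod k q
      rw [hk.2] at h1
      rw [mem_Ioc, hA, hB, Nat.div_lt_iff_lt_mul (by omega), Nat.le_div_iff_mul_le (by omega)]
      have h2 : k / q * q = q * (k / q) := mul_comm _ _
      rw [h2]
      omega
    · intro j hj
      rw [mem_Ioc, hA, hB, Nat.div_lt_iff_lt_mul (by omega), Nat.le_div_iff_mul_le (by omega),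
        mul_comm j q] at hj
      rw [mem_filter, mem_Ioc]
      refine ⟨by omega, ?_⟩
      rw [Nat.mul_add_mod, Nat.mod_eq_of_lt hqr]
    · intro k hk
      rw [mem_filter] at hk
      have h1 := Nat.div_add_mod k q
      rw [hk.2] at h1
      exact h1
    · intro j _
      rw [Nat.mul_add_div (by omega), Nat.div_eq_of_lt hqr, add_zero]
    · intro k hk
      rw [mem_filter] at hk
      have h1 := Nat.div_add_mod k q
      rw [hk.2] at h1
      have h2 : (q : ℝ) * ((k / q : ℕ) : ℝ) + r = k := by exact_mod_cast h1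
      simp only [gQ, h2]
  -- bound of the partial sums
  have hx1 : (1 : ℝ) ≤ x := by linarith
  have hKsq : (K : ℝ) ^ (1 / 2 : ℝ) * (K : ℝ) ^ (1 / 2 : ℝ) = K := by
    rw [← Real.rpow_add hK0]; norm_num
  have hKh0 : 0 < (K : ℝ) ^ (1 / 2 : ℝ) := Real.rpow_pos_of_pos hK0 _
  have hξ0 : 0 < |ξ| := lt_of_lt_of_le (by positivity) hξ1
  have hA0 : (0 : ℝ) ≤ A := Nat.cast_nonneg _
  have hA1r : (1 : ℝ) ≤ A := by exact_mod_cast hA1
  have hK12 : (K1 : ℝ) ≤ 2 * (q * ((A : ℝ) + 1)) := by nlinarith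
  have hA1' : (K : ℝ) ^ (1 / 2 : ℝ) ≤ (A : ℝ) + 1 := by
    have h2 : (K : ℝ) ≤ (2 * L ^ (E1 + E2)) * ((A : ℝ) + 1) := by
      calc (K : ℝ) ≤ K1 * L ^ E2 := hKK1
        _ ≤ (2 * (q * ((A : ℝ) + 1))) * L ^ E2 := mul_le_mul_of_nonneg_right hK12 (by positivity)
        _ ≤ (2 * (L ^ E1 * ((A : ℝ) + 1))) * L ^ E2 := by gcongr
        _ = (2 * L ^ (E1 + E2)) * ((A : ℝ) + 1) := by rw [pow_add]; ring
    have h3 : (K : ℝ) ^ (1 / 2 : ℝ) * (K : ℝ) ^ (1 / 2 : ℝ) ≤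
        (K : ℝ) ^ (1 / 2 : ℝ) * ((A : ℝ) + 1) := by
      rw [hKsq]
      exact h2.trans (mul_le_mul_of_nonneg_right c4 (by positivity))
    exact le_of_mul_le_mul_left h3 hKh0
  -- the polynomial
  have hlow : ∀ t : ℝ, (K1 : ℝ) ≤ t → t ^ j / 2 ≤ pw j b t := fun t ht =>
    pw_lower j b L K1 t hL0 hLj hK10.le hb ht
  have hpwpos : ∀ t : ℝ, (K1 : ℝ) ≤ t → 0 < pw j b t := fun t ht =>
    lt_of_lt_of_le (by
      have : 0 < t := lt_of_lt_of_le hK10 ht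
      positivity) (hlow t ht)
  have hpwmono : ∀ s t : ℝ, (K1 : ℝ) ≤ s → s ≤ t → pw j b s ≤ pw j b t := by
    intro s t hs hst
    have h1 := pw_mono j b L K1 s t hL0 hLj hK10.le hb hs hst
    have h2 : s ^ j ≤ t ^ j := pow_le_pow_left₀ (hK10.le.trans hs) hst _
    linarith
  have hbκ : ∀ i : Fin (j - 1), |b i| ≤ κ * (q * ((A : ℝ) + 1)) ^ (j - 1 - (i : ℕ)) := by
    intro i
    have hi := i.2
    have h1 : |b i| * L ≤ (κ * (q * ((A : ℝ) + 1)) ^ (j - 1 - (i : ℕ))) * L := by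
      calc |b i| * L ≤ (K1 : ℝ) ^ (j - 1 - (i : ℕ)) := hb i
        _ ≤ (2 * (q * ((A : ℝ) + 1))) ^ (j - 1 - (i : ℕ)) :=
            pow_le_pow_left₀ hK10.le hK12 _
        _ = 2 ^ (j - 1 - (i : ℕ)) * (q * ((A : ℝ) + 1)) ^ (j - 1 - (i : ℕ)) := mul_pow _ _ _
        _ ≤ 2 ^ j * (q * ((A : ℝ) + 1)) ^ (j - 1 - (i : ℕ)) := by
            apply mul_le_mul_of_nonneg_right _ (by positivity)
            exact pow_le_pow_right₀ (by norm_num) (by omega)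
        _ ≤ (κ * L) * (q * ((A : ℝ) + 1)) ^ (j - 1 - (i : ℕ)) :=
            mul_le_mul_of_nonneg_right hLκ (by positivity)
        _ = _ := by ring
    exact le_of_mul_le_mul_right h1 hL0
  have hξone : 1 ≤ |ξ| := le_trans (one_le_pow₀ hL1) hξ1
  set m := Nat.log 2 x + 1 with hm
  have hm2 : B ≤ 2 ^ m := by
    have h1 : x < 2 ^ (Nat.log 2 x + 1) := Nat.lt_pow_succ_log_self (by norm_num) x
    rw [hm]
    have h2 : B ≤ x := hBK.trans hKx
    omega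
  have hmL : (m : ℝ) ≤ 3 * L := by
    have h1 : 2 ^ Nat.log 2 x ≤ x := Nat.pow_log_le_self 2 (by omega)
    have h2 : (2 : ℝ) ^ Nat.log 2 x ≤ x := by exact_mod_cast h1
    have h3 : (Nat.log 2 x : ℝ) * Real.log 2 ≤ L := by
      rw [hL, ← Real.log_pow]
      exact Real.log_le_log (by positivity) h2
    have h4 : (1 / 2 : ℝ) ≤ Real.log 2 := by
      have := Real.log_two_gt_d9; linarith
    have h5 : (0 : ℝ) ≤ Nat.log 2 x := Nat.cast_nonneg _
    rw [hm]; push_cast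
    nlinarith
  have hξM : |ξ| ≤ ((A : ℝ) + 1) ^ M := by
    refine hξ2.trans ?_
    rw [hM]
    calc (K : ℝ) ^ 2 = ((K : ℝ) ^ (1 / 2 : ℝ) * (K : ℝ) ^ (1 / 2 : ℝ)) ^ 2 := by rw [hKsq]
      _ = ((K : ℝ) ^ (1 / 2 : ℝ)) ^ 4 := by ring
      _ ≤ ((A : ℝ) + 1) ^ 4 := pow_le_pow_left₀ hKh0.le hA1' 4
  have hpart : ∀ b0, A ≤ b0 → b0 ≤ B → ‖∑ n ∈ Ioc A b0, gQ j b q r ξ n‖ ≤ K / L ^ V := by
    intro b0 hAb hbB
    have h1 := large_xiQ hη hC hv b q r ξ hq1 hr0 hrq K A B hA1 hBK hκ.le hbκ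
      (fun t ht => hpwpos _ (by nlinarith)) hA1' hξone hξM m hm2 b0 hAb hbB
    refine h1.trans ?_
    rw [le_div_iff₀ (by positivity)]
    have h3 : (K : ℝ) ^ (-(η / 2)) * (K : ℝ) ^ (η / 2) = 1 := by
      rw [← Real.rpow_add hK0]; simp
    have hKm : 0 < (K : ℝ) ^ (-(η / 2)) := Real.rpow_pos_of_pos hK0 _
    have t1 : (3 * L) * (C * ((K : ℝ) * (K : ℝ) ^ (-(η / 2)))) * L ^ V ≤ 1 / 2 * K := by
      calc (3 * L) * (C * ((K : ℝ) * (K : ℝ) ^ (-(η / 2)))) * L ^ V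
        _ = 1 / 2 * ((K : ℝ) * (K : ℝ) ^ (-(η / 2)) * (6 * C * L ^ (V + 1))) := by
            rw [pow_succ]; ring
        _ ≤ 1 / 2 * ((K : ℝ) * (K : ℝ) ^ (-(η / 2)) * (K : ℝ) ^ (η / 2)) := by
            apply mul_le_mul_of_nonneg_left _ (by norm_num)
            apply mul_le_mul_of_nonneg_left c5 (by positivity)
        _ = 1 / 2 * K := by rw [mul_assoc ((K : ℝ)), h3, mul_one]
    have t2 : (3 * L) * (C * ((K : ℝ) / |ξ|)) * L ^ V ≤ 1 / 2 * K := by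
      have h4 : (K : ℝ) / |ξ| ≤ K / L ^ (V + 2) := by gcongr
      calc (3 * L) * (C * ((K : ℝ) / |ξ|)) * L ^ V
          ≤ (3 * L) * (C * ((K : ℝ) / L ^ (V + 2))) * L ^ V := by gcongr
        _ = 1 / 2 * ((6 * C) * K / L) := by
            rw [pow_add]
            field_simp
            ring
        _ ≤ 1 / 2 * K := by
            apply mul_le_mul_of_nonneg_left _ (by norm_num)
            rw [div_le_iff₀ hL0]
            nlinarith
    calc (m : ℝ) * (C * ((K : ℝ) * (K : ℝ) ^ (-(η / 2)) + K / |ξ|)) * L ^ V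
        ≤ (3 * L) * (C * ((K : ℝ) * (K : ℝ) ^ (-(η / 2)) + K / |ξ|)) * L ^ V := by gcongr
      _ = (3 * L) * (C * ((K : ℝ) * (K : ℝ) ^ (-(η / 2)))) * L ^ V +
          (3 * L) * (C * ((K : ℝ) / |ξ|)) * L ^ V := by ring
      _ ≤ K := by linarith
  -- Abel summation
  have hw0 : ∀ n : ℕ, A < n → (K1 : ℝ) ≤ (q : ℝ) * n + r := by
    intro n hn
    have h1 : (A : ℝ) + 1 ≤ n := by exact_mod_cast hn
    nlinarith
  have habel := KS.abel (fun n : ℕ => (pw j b ((q : ℝ) * n + r)) ^ (-(1 / 2) : ℝ))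
    (fun n : ℕ => gQ j b q r ξ n) A
    (K / L ^ V) (by positivity) B hAB
    (fun n hn => Real.rpow_nonneg (hpwpos _ (hw0 n hn)).le _)
    (by
      intro n hn
      have h1 := hw0 n hn
      apply Real.rpow_le_rpow_of_nonpos (hpwpos _ h1) _ (by norm_num)
      apply hpwmono _ _ h1
      push_cast
      linarith) hpart
  rw [hsum]
  have hpK1 : 0 < (K1 : ℝ) ^ j / 2 := by positivity
  have hfin : (pw j b ((q : ℝ) * ((A + 1 : ℕ) : ℝ) + r)) ^ (-(1 / 2) : ℝ) ≤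
      ((K1 : ℝ) ^ j / 2) ^ (-(1 / 2) : ℝ) := by
    apply Real.rpow_le_rpow_of_nonpos hpK1 _ (by norm_num)
    refine (hlow K1 le_rfl).trans (hpwmono _ _ le_rfl ?_)
    push_cast
    exact hqA'.le
  have h1 := habel.trans (mul_le_mul_of_nonneg_right hfin (by positivity : 0 ≤ (K : ℝ) / L ^ V))
  have h2 := pow_le_pow_left₀ (norm_nonneg _) h1 2
  refine h2.trans ?_
  have h3 : (((K1 : ℝ) ^ j / 2) ^ (-(1 / 2) : ℝ)) ^ 2 = ((K1 : ℝ) ^ j / 2)⁻¹ := by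
    rw [← Real.rpow_natCast, ← Real.rpow_mul hpK1.le, ← Real.rpow_neg_one]
    congr 1; norm_num
  rw [mul_pow, h3]
  have h4 : ((K : ℝ) / L ^ V) ^ 2 = K ^ 2 / (L ^ V * L ^ V) := by
    rw [div_pow]; ring
  have hKj : (K : ℝ) ^ j ≤ (K1 : ℝ) ^ j * L ^ (E2 * j) := by
    calc (K : ℝ) ^ j ≤ (K1 * L ^ E2) ^ j := pow_le_pow_left₀ hK0.le hKK1 _
      _ = (K1 : ℝ) ^ j * L ^ (E2 * j) := by rw [mul_pow, ← pow_mul]
  have h6 : 2 * (L ^ U * L ^ (E2 * j)) ≤ L ^ V * L ^ V := by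
    calc 2 * (L ^ U * L ^ (E2 * j)) ≤ L * (L ^ U * L ^ (E2 * j)) :=
          mul_le_mul_of_nonneg_right hL2 (by positivity)
      _ = L ^ V := by rw [hV, pow_add, pow_add]; ring
      _ = L ^ V * 1 := (mul_one _).symm
      _ ≤ L ^ V * L ^ V := mul_le_mul_of_nonneg_left (one_le_pow₀ hL1) (by positivity)
  rw [h4, inv_mul_eq_div, div_div, div_div]
  rw [div_le_div_iff₀ (by positivity) (by positivity)]
  have h7 : (K : ℝ) ^ j * L ^ U ≤ L ^ V * L ^ V * ((K1 : ℝ) ^ j / 2) := by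
    calc (K : ℝ) ^ j * L ^ U ≤ ((K1 : ℝ) ^ j * L ^ (E2 * j)) * L ^ U :=
          mul_le_mul_of_nonneg_right hKj (by positivity)
      _ = (2 * (L ^ U * L ^ (E2 * j))) * ((K1 : ℝ) ^ j / 2) := by ring
      _ ≤ (L ^ V * L ^ V) * ((K1 : ℝ) ^ j / 2) := mul_le_mul_of_nonneg_right h6 hpK1.le
  calc (K : ℝ) ^ 2 * ((K : ℝ) ^ j * L ^ U) ≤ (K : ℝ) ^ 2 * (L ^ V * L ^ V * ((K1 : ℝ) ^ j / 2)) :=
        mul_le_mul_of_nonneg_left h7 (by positivity)
    _ = _ := by ring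

end Pool.Agent.Y889.SK
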