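import Pool.Agent.H469R2.FB_MajGenQ

/-!
Major arcs mean value with real arguments, when only the frequencies up to `Ξ` can be used.
Adaptation of `Pool/Agent/H469R2/FB_MajGenQ.lean`.
-/

set_option autoImplicit false

namespace Pool.Agent.Y889.SK

open Finset MeasureTheory
open Pool.Agent.H469R2.NK (e norm_e)
open Pool.Agent.H442R2.EHI
open Pool.Agent.H442R2.EHI.MP
open Pool.Agent.H378R2.BH (hat_bound')
open Pool.Agent.H469R2.FB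

/-- The core for one value of the parameters. -/
lemma core_genS {C C5 : ℝ} (hC : 0 < C) (hC5 : 0 < C5)
    (hcut : ∀ s0 s1 : ℝ, s0 ≤ s1 → ∃ ρ : ℝ → ℝ,
      ContDiff ℝ (⊤ : ℕ∞) ρ ∧ (∀ s, 0 ≤ ρ s ∧ ρ s ≤ 1) ∧ (∀ s ∈ Set.Icc s0 s1, ρ s = 1) ∧
      (∀ s, s ≤ s0 - 1 → ρ s = 0) ∧ (∀ s, s1 + 1 ≤ s → ρ s = 0) ∧ (∀ s, |deriv ρ s| ≤ C) ∧
      (∀ ξ γ : ℝ, ‖∫ s : ℝ, (((Real.exp (s / 2) * ρ s : ℝ) : ℂ) * e (-(ξ * s))) *
        e (-(Real.exp s * γ))‖ ≤ C * Real.exp (s1 / 2)) ∧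
      (∀ ξ γ : ℝ, γ ≠ 0 → ‖∫ s : ℝ, (((Real.exp (s / 2) * ρ s : ℝ) : ℂ) * e (-(ξ * s))) *
        e (-(Real.exp s * γ))‖ ≤ C * (1 + |ξ|) ^ 2 * Real.exp (-(3 / 2) * s0) / γ ^ 2))
    (h5 : ∀ (S : Finset ℤ) (θ : ℝ),
      ∑ h ∈ S.filter (fun h : ℤ => 1 ≤ |(h : ℝ) + θ|), 1 / ((h : ℝ) + θ) ^ 2 ≤ C5)
    {x N D G G1 K : ℕ} {L δ Ξ : ℝ} (hΞ0 : 0 < Ξ) {E0 E2 E3 E4 E5 U : ℕ}
    (hE3 : E3 = 5 * E4 + 3 * E0 + 4 * E2 + 2 * U + 2 * E5 + 20) (hL : 15 ≤ L)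
    (hL2 : 8 * (360000 * C ^ 2 + 2560000 * (C ^ 2 * C5)) ≤ L)
    (hx : 1 ≤ x)
    (hxL : 4 * (2 * (1 / 2 + C) ^ 2 + 800000) * L ^ (E2 + 2 * U + 2 * E5 + 8) *
      (1 + (δ * x) ^ 2) ≤ Ξ ^ 2)
    (hN1 : 8 * x ≤ N) (hN2 : N ≤ 100 * x) (hD : 1 ≤ D) (hG1 : 1 ≤ G1) (hGG : G1 ≤ G)
    (hDG : D * G ≤ x) (hxDG : (x : ℝ) ≤ D * G * L ^ E0)
    (hGG1 : (G : ℝ) ≤ G1 * L ^ E2) {θ : ℝ} {S : Finset ℤ} {c : ℤ → ℂ}
    (hδ0 : 0 ≤ δ) (hδ1 : δ ≤ 1) (hδG : δ * G ≤ L ^ E5)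
    (hδ : ∀ h ∈ S, |((h : ℝ) + θ) / N| ≤ δ)
    (hV : (N : ℝ) * ∑ h ∈ S, ‖c h‖ ^ 2 ≤ x * L ^ 2)
    (hsm : ∀ h ∈ S, |((h : ℝ) + θ) / N| ≤ L ^ E3 / x → (N : ℝ) * ‖c h‖ ≤ x / L ^ (2 * E3))
    {T : Finset ℕ} {p : ℕ → ℝ} (hT : ∀ k ∈ T, (G1 : ℝ) ≤ p k ∧ p k ≤ G) (hTK : T.card ≤ K)
    (hks : ∀ ξ : ℝ, L ^ E4 ≤ |ξ| → |ξ| ≤ Ξ →
      ‖∑ k ∈ T, (((p k) ^ (-(1 / 2) : ℝ) : ℝ) : ℂ) * e (ξ * Real.log (p k))‖ ^ 2 ≤
        ((K : ℝ) ^ 2 / G) / L ^ (2 * U + 2 * E5 + 10)) :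
    ∑ d ∈ Ioc D (2 * D), ‖∑ k ∈ T, poly N θ S c ((d : ℝ) * p k)‖ ^ 2 ≤
      x * ((K : ℝ) ^ 2 / G) / L ^ U := by
  have hx0 : (0:ℝ) < x := by exact_mod_cast hx
  have hx1 : (1:ℝ) ≤ x := by exact_mod_cast hx
  have hD0 : (0:ℝ) < D := by exact_mod_cast hD
  have hG : 1 ≤ G := hG1.trans hGG
  have hG0 : (0:ℝ) < G := by exact_mod_cast hG
  have hG10 : (0:ℝ) < G1 := by exact_mod_cast hG1
  have hGG' : (G1:ℝ) ≤ G := by exact_mod_cast hGG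
  have hN1' : 8 * (x:ℝ) ≤ N := by exact_mod_cast hN1
  have hN2' : (N:ℝ) ≤ 100 * x := by exact_mod_cast hN2
  have hN0 : (0:ℝ) < N := by linarith
  have hNN : 1 ≤ N := by omega
  have hDG' : (D:ℝ) * G ≤ x := by exact_mod_cast hDG
  have hL0 : 0 < L := by linarith
  have hL1 : 1 ≤ L := by linarith
  have hLp : ∀ n : ℕ, 1 ≤ L ^ n := fun n => one_le_pow₀ hL1
  have hLp0 : ∀ n : ℕ, 0 < L ^ n := fun n => by positivity
  set V : ℝ := (K : ℝ) ^ 2 / G with hVdef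
  have hV00 : 0 ≤ V := by positivity
  have hPb : (K : ℝ) ^ 2 / G1 ≤ V * L ^ E2 := by
    rw [hVdef, div_mul_eq_mul_div, div_le_div_iff₀ hG10 hG0, mul_assoc]
    apply mul_le_mul_of_nonneg_left _ (by positivity)
    linarith
  have e4 : (x : ℝ) ≤ 2 * L ^ (E0 + E2) * (D * G1) := by
    calc (x:ℝ) ≤ D * G * L ^ E0 := hxDG
      _ ≤ D * (G1 * L ^ E2) * L ^ E0 := by gcongr
      _ = L ^ (E0 + E2) * (D * G1) := by rw [pow_add]; ring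
      _ ≤ 2 * (L ^ (E0 + E2) * (D * G1)) := by
          have : 0 ≤ L ^ (E0 + E2) * (D * G1) := by positivity
          linarith
      _ = _ := by ring
  set s0 := Real.log (D * G1) with hs0
  set s1 := Real.log (2 * D * G) with hs1
  have hs : s0 ≤ s1 := by
    rw [hs0, hs1]
    apply Real.log_le_log (by positivity)
    calc (D:ℝ) * G1 ≤ D * G := mul_le_mul_of_nonneg_left hGG' hD0.le
      _ ≤ 2 * D * G := by nlinarith [mul_pos hD0 hG0]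
  obtain ⟨ρ, hρc, hρ, hρ1, h0, h1, hdρ, hΨ1, hΨ2⟩ := hcut s0 s1 hs
  have hexp : Real.exp (s1 + 1) ≤ N := by
    rw [Real.exp_add, hs1, Real.exp_log (by positivity)]
    have := Real.exp_one_lt_d9
    calc 2 * (D:ℝ) * G * Real.exp 1 ≤ 2 * (D:ℝ) * G * 3 := by
          apply mul_le_mul_of_nonneg_left _ (by positivity)
          linarith
      _ = 6 * (D * G) := by ring
      _ ≤ N := by linarith
  -- the two integrals of the polynomial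
  have hV0 : ∫ y in (0:ℝ)..N, ‖poly N θ S c y‖ ^ 2 ≤ x * L ^ 2 := by
    rw [poly_sq N hNN θ S c]; exact hV
  have hpi : (2 * Real.pi) ^ 2 ≤ 40 := by
    have := Real.pi_lt_d2
    have h3 := Real.pi_pos
    nlinarith
  have hB : ∫ y in (0:ℝ)..N, ‖deriv (poly N θ S c) y‖ ^ 2 ≤ 40 * δ ^ 2 * (x * L ^ 2) := by
    refine (poly_deriv N hNN θ S c δ hδ).2.trans ?_
    have h2 : (2 * Real.pi * δ) ^ 2 ≤ 40 * δ ^ 2 := by
      rw [mul_pow]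
      exact mul_le_mul_of_nonneg_right hpi (by positivity)
    exact mul_le_mul h2 hV (by positivity) (by positivity)
  -- the function h
  have hhc : ContDiff ℝ (⊤ : ℕ∞) (hh N θ S c ρ) := contDiff_hh hρc
  have hhs : HasCompactSupport (hh N θ S c ρ) := hasCompactSupport_hh h0 h1
  have hpl := planchQ (hh N θ S c ρ) hhc hhs T p
  obtain ⟨hgi, hge, hgt⟩ := planch_tail (hh N θ S c ρ) hhc hhs Ξ hΞ0
  have hI1 := I_leQ (N := N) (θ := θ) (S := S) (c := c) hD hG1 hGG hT hs0 hs1 hρc hρ1 h0 h1 hpl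
  have hH : ∫ s, ‖hh N θ S c ρ s‖ ^ 2 ≤ x * L ^ 2 :=
    (int_hh hs hρc hρ h0 h1 hexp).trans hV0
  have hH' : ∫ s, ‖deriv (hh N θ S c ρ) s‖ ^ 2 ≤
      (2 * (1 / 2 + C) ^ 2 + 800000) * ((1 + (δ * x) ^ 2) * (x * L ^ 2)) := by
    refine (int_deriv_hh hs hρc hρ h0 h1 hexp hdρ).trans ?_
    have hδx : 0 ≤ (δ * x) ^ 2 := by positivity
    have hxL2 : 0 ≤ (x : ℝ) * L ^ 2 := by positivity
    have a1 : 2 * (1 / 2 + C) ^ 2 * (∫ y in (0:ℝ)..N, ‖poly N θ S c y‖ ^ 2) ≤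
        2 * (1 / 2 + C) ^ 2 * ((1 + (δ * x) ^ 2) * (x * L ^ 2)) := by
      apply mul_le_mul_of_nonneg_left _ (by positivity)
      refine hV0.trans ?_
      nlinarith
    have a2 : 2 * (N:ℝ) ^ 2 * ∫ y in (0:ℝ)..N, ‖deriv (poly N θ S c) y‖ ^ 2 ≤
        800000 * ((1 + (δ * x) ^ 2) * (x * L ^ 2)) := by
      have b2 : (N:ℝ) ^ 2 ≤ (100 * x) ^ 2 := pow_le_pow_left₀ hN0.le hN2' 2
      calc 2 * (N:ℝ) ^ 2 * ∫ y in (0:ℝ)..N, ‖deriv (poly N θ S c) y‖ ^ 2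
          ≤ 2 * (N:ℝ) ^ 2 * (40 * δ ^ 2 * (x * L ^ 2)) := mul_le_mul_of_nonneg_left hB (by positivity)
        _ ≤ 2 * (100 * (x:ℝ)) ^ 2 * (40 * δ ^ 2 * (x * L ^ 2)) := by
            apply mul_le_mul_of_nonneg_right _ (by positivity)
            linarith
        _ = 800000 * ((δ * x) ^ 2 * (x * L ^ 2)) := by ring
        _ ≤ _ := by
            apply mul_le_mul_of_nonneg_left _ (by norm_num)
            apply mul_le_mul_of_nonneg_right _ hxL2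
            linarith
    calc _ ≤ 2 * (1 / 2 + C) ^ 2 * ((1 + (δ * x) ^ 2) * (x * L ^ 2)) +
          800000 * ((1 + (δ * x) ^ 2) * (x * L ^ 2)) :=
          add_le_add a1 a2
      _ = _ := by ring
  set C6 : ℝ := 360000 * C ^ 2 + 2560000 * (C ^ 2 * C5) with hC6
  have hC60 : 0 < C6 := by positivity
  set Cd : ℝ := 2 * (1 / 2 + C) ^ 2 + 800000 with hCd
  have hCd0 : 0 < Cd := by positivity
  set H2 : ℝ := C6 * (x * L ^ (2 + 4 * E4 + 3 * (E0 + E2)) / L ^ (2 * E3)) with hH2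
  have hH20 : 0 ≤ H2 := by positivity
  have hI2 : ∫ ξ : ℝ, ‖∫ s : ℝ, hh N θ S c ρ s * e (-(ξ * s))‖ ^ 2 *
        ‖∑ k ∈ T, (((p k) ^ (-(1 / 2) : ℝ) : ℝ) : ℂ) * e (ξ * Real.log (p k))‖ ^ 2 ≤
      2 * L ^ E4 * (H2 * (V * L ^ E2)) +
        V / L ^ (2 * U + 2 * E5 + 10) *
          (∫ ξ : ℝ, ‖∫ s : ℝ, hh N θ S c ρ s * e (-(ξ * s))‖ ^ 2) +
        V * L ^ E2 * ∫ ξ in {ξ : ℝ | Ξ < |ξ|},
          ‖∫ s : ℝ, hh N θ S c ρ s * e (-(ξ * s))‖ ^ 2 := by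
    refine three_ranges (by positivity) (fun ξ => by positivity) (fun ξ => by positivity) hgi
      (by positivity) (by positivity) (by positivity) ?_ ?_ ?_
    · intro ξ hξ
      have := hat_bound' (N := N) (θ := θ) (S := S) (c := c) hC hC5 h5 hL1 hx hN1 hN2 hD hG1 hG hDG
        e4 hs0 hs1 hρc h0 h1 hΨ1 hΨ2 hV hsm ξ hξ.le
      exact mul_le_mul this ((P_leQ hT hG1 hTK ξ).trans hPb) (by positivity) hH20
    · intro ξ h2 h3
      rw [mul_comm]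
      exact mul_le_mul_of_nonneg_right (hks ξ h2 h3) (by positivity)
    · intro ξ _
      rw [mul_comm]
      exact mul_le_mul_of_nonneg_right ((P_leQ hT hG1 hTK ξ).trans hPb) (by positivity)
  set A : ℝ := x * V with hA
  have hA0 : 0 ≤ A := by positivity
  set W : ℕ := 2 * U + 2 * E5 + 6 with hW
  have hI3 : ∫ ξ : ℝ, ‖∫ s : ℝ, hh N θ S c ρ s * e (-(ξ * s))‖ ^ 2 *
        ‖∑ k ∈ T, (((p k) ^ (-(1 / 2) : ℝ) : ℝ) : ℂ) * e (ξ * Real.log (p k))‖ ^ 2 ≤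
      A / L ^ W := by
    have b1 : 2 * L ^ E4 * (H2 * (V * L ^ E2)) ≤ A / L ^ W / 4 := by
      have c1 : 2 * L ^ E4 * (H2 * (V * L ^ E2)) = 2 * C6 *
          (A * L ^ (2 + 5 * E4 + 3 * E0 + 4 * E2) / L ^ (2 * E3)) := by
        rw [hH2, hA]
        have : L ^ (2 + 5 * E4 + 3 * E0 + 4 * E2) =
            L ^ E4 * L ^ (2 + 4 * E4 + 3 * (E0 + E2)) * L ^ E2 := by
          rw [← pow_add, ← pow_add]; congr 1; ring
        rw [this]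
        ring
      rw [c1, le_div_iff₀ (by norm_num : (0:ℝ) < 4), le_div_iff₀ (hLp0 _)]
      have c2 : L ^ (2 * E3) = L ^ (2 + 5 * E4 + 3 * E0 + 4 * E2) * L ^ W * L *
          L ^ (5 * E4 + 3 * E0 + 4 * E2 + 2 * U + 2 * E5 + 31) := by
        rw [← pow_add, ← pow_succ, ← pow_add, hE3, hW]
        congr 1
        ring
      have c3 : 2 * C6 * (A * L ^ (2 + 5 * E4 + 3 * E0 + 4 * E2) / L ^ (2 * E3)) * 4 * L ^ W =
          A * (8 * C6 / (L * L ^ (5 * E4 + 3 * E0 + 4 * E2 + 2 * U + 2 * E5 + 31))) := by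
        rw [c2]
        have := hLp0 (2 + 5 * E4 + 3 * E0 + 4 * E2)
        have := hLp0 W
        have := hLp0 (5 * E4 + 3 * E0 + 4 * E2 + 2 * U + 2 * E5 + 31)
        field_simp
        ring
      rw [c3]
      apply mul_le_of_le_one_right hA0
      rw [div_le_one (by positivity)]
      calc 8 * C6 ≤ L := hL2
        _ ≤ _ := le_mul_of_one_le_right hL0.le (hLp _)
    have b2 : V / L ^ (2 * U + 2 * E5 + 10) *
        (∫ ξ : ℝ, ‖∫ s : ℝ, hh N θ S c ρ s * e (-(ξ * s))‖ ^ 2) ≤ A / L ^ W / 4 := by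
      rw [hge]
      calc V / L ^ (2 * U + 2 * E5 + 10) * ∫ s, ‖hh N θ S c ρ s‖ ^ 2
          ≤ V / L ^ (2 * U + 2 * E5 + 10) * (x * L ^ 2) :=
            mul_le_mul_of_nonneg_left hH (by positivity)
        _ = A / L ^ W / L ^ 2 := by
            have : L ^ (2 * U + 2 * E5 + 10) = L ^ W * (L ^ 2 * L ^ 2) := by
              rw [hW, ← pow_add, ← pow_add]
            rw [this, hA]
            have := hLp0 W
            field_simp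
        _ ≤ A / L ^ W / 4 := by
            apply div_le_div_of_nonneg_left (by positivity) (by norm_num)
            nlinarith
    have b3 : V * L ^ E2 * ∫ ξ in {ξ : ℝ | Ξ < |ξ|},
          ‖∫ s : ℝ, hh N θ S c ρ s * e (-(ξ * s))‖ ^ 2 ≤ A / L ^ W / 4 := by
      calc V * L ^ E2 * ∫ ξ in {ξ : ℝ | Ξ < |ξ|},
            ‖∫ s : ℝ, hh N θ S c ρ s * e (-(ξ * s))‖ ^ 2
          ≤ V * L ^ E2 * (1 / Ξ ^ 2 * (Cd * ((1 + (δ * x) ^ 2) * (x * L ^ 2)))) := by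
            apply mul_le_mul_of_nonneg_left _ (by positivity)
            refine hgt.trans (mul_le_mul_of_nonneg_left hH' (by positivity))
        _ ≤ A / L ^ W / 4 := by
            rw [le_div_iff₀ (by norm_num : (0:ℝ) < 4), le_div_iff₀ (hLp0 _), hA]
            have c4 : V * L ^ E2 * (1 / Ξ ^ 2 * (Cd * ((1 + (δ * x) ^ 2) * (x * L ^ 2)))) * 4 * L ^ W =
                (x * V) * ((4 * Cd * L ^ (E2 + 2 * U + 2 * E5 + 8) * (1 + (δ * x) ^ 2)) / Ξ ^ 2) := by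
              have : L ^ (E2 + 2 * U + 2 * E5 + 8) = L ^ E2 * L ^ 2 * L ^ W := by
                rw [hW, ← pow_add, ← pow_add]; congr 1; ring
              rw [this]
              field_simp
            rw [c4]
            apply mul_le_of_le_one_right (by positivity)
            rw [div_le_one (by positivity)]
            exact hxL
    have b4 : 0 ≤ A / L ^ W / 4 := by positivity
    linarith
  -- Sobolev
  set g : ℝ → ℂ := fun u => ∑ k ∈ T, poly N θ S c (u * p k) with hg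
  have hgc : ContDiff ℝ 1 g := by
    refine ContDiff.sum fun k _ => ?_
    have : ContDiff ℝ (⊤ : ℕ∞) fun u : ℝ => poly N θ S c (u * p k) :=
      contDiff_poly.comp (contDiff_id.mul contDiff_const)
    exact this.of_le (by simp)
  have hsob := sobolev D hD g hgc
  set A' : ℝ := A * L ^ (2 * E5) with hA'
  have hA'0 : 0 ≤ A' := by positivity
  have hJ : ∫ u in (D : ℝ)..(2 * D), ‖deriv g u‖ ^ 2 ≤ 40 * A' * L ^ 2 := by
    have hDN : 2 * D * G ≤ N := by nlinarith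
    refine (J_leQ (N := N) (θ := θ) (S := S) (c := c) hG1 hT hTK hDN).trans ?_
    calc (K:ℝ) ^ 2 * G * ∫ y in (0:ℝ)..N, ‖deriv (poly N θ S c) y‖ ^ 2
        ≤ (K:ℝ) ^ 2 * G * (40 * δ ^ 2 * (x * L ^ 2)) :=
          mul_le_mul_of_nonneg_left hB (by positivity)
      _ = (δ * G) ^ 2 * (40 * A * L ^ 2) := by
          rw [hA, hVdef]
          field_simp
      _ ≤ (L ^ E5) ^ 2 * (40 * A * L ^ 2) := by
          apply mul_le_mul_of_nonneg_right _ (by positivity)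
          exact pow_le_pow_left₀ (by positivity) hδG 2
      _ = _ := by rw [hA', ← pow_mul, mul_comm E5 2]; ring
  have hI4 : A / L ^ W ≤ A' / L ^ (2 * (U + 2 * E5) + 4) := by
    have : L ^ (2 * (U + 2 * E5) + 4) = L ^ (2 * U + 2 * E5 + 4) * L ^ (2 * E5) := by
      rw [← pow_add]; congr 1; ring
    rw [hA', this, mul_div_mul_right _ _ (hLp0 _).ne']
    apply div_le_div_of_nonneg_left hA0 (hLp0 _)
    exact pow_le_pow_right₀ hL1 (by omega)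
  have hfin := final_num (U := U + 2 * E5) hA'0 hL ((hI1.trans hI3).trans hI4) hJ hsob
  refine hfin.trans (le_of_eq ?_)
  rw [hA', pow_add, mul_div_mul_right _ _ (hLp0 _).ne']


/-- Major arcs mean value with real arguments; only the frequencies up to `Ξ` are used. -/
theorem major_genS (E0 E2 E4 E5 U : ℕ) : ∃ (E3 x0 : ℕ), ∀ x : ℕ, x0 ≤ x →
    ∀ (N D G G1 K : ℕ) (δ θ Ξ : ℝ) (S : Finset ℤ) (c : ℤ → ℂ) (T : Finset ℕ) (p : ℕ → ℝ),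
    8 * x ≤ N → N ≤ 100 * x → 1 ≤ D → D * G ≤ x → (x : ℝ) ≤ D * G * Real.log x ^ E0 →
    1 ≤ G1 → G1 ≤ G → (G : ℝ) ≤ G1 * Real.log x ^ E2 → 0 ≤ δ → δ ≤ 1 →
    δ * G ≤ Real.log x ^ E5 → (∀ h ∈ S, |((h : ℝ) + θ) / N| ≤ δ) →
    (N : ℝ) * ∑ h ∈ S, ‖c h‖ ^ 2 ≤ x * Real.log x ^ 2 →
    (∀ h ∈ S, |((h : ℝ) + θ) / N| ≤ Real.log x ^ E3 / x →
      (N : ℝ) * ‖c h‖ ≤ x / Real.log x ^ (2 * E3)) →
    (∀ k ∈ T, (G1 : ℝ) ≤ p k ∧ p k ≤ G) → T.card ≤ K →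
    Real.log x ^ (E2 + U + E5 + 5) * (1 + δ * x) ≤ Ξ →
    (∀ ξ : ℝ, Real.log x ^ E4 ≤ |ξ| → |ξ| ≤ Ξ →
      ‖∑ k ∈ T, (((p k) ^ (-(1 / 2) : ℝ) : ℝ) : ℂ) * e (ξ * Real.log (p k))‖ ^ 2 ≤
        ((K : ℝ) ^ 2 / G) / Real.log x ^ (2 * U + 2 * E5 + 10)) →
    ∑ d ∈ Ioc D (2 * D), ‖∑ k ∈ T, poly N θ S c ((d : ℝ) * p k)‖ ^ 2 ≤
      x * ((K : ℝ) ^ 2 / G) / Real.log x ^ U := by
  obtain ⟨C, hC, hcut⟩ := cutoff
  obtain ⟨C5, hC5, h5⟩ := MP.inv_sq_sum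
  obtain ⟨x3, hx3⟩ := MP.log_large (max (max 15 (4 * (2 * (1 / 2 + C) ^ 2 + 800000)))
    (8 * (360000 * C ^ 2 + 2560000 * (C ^ 2 * C5))))
  refine ⟨5 * E4 + 3 * E0 + 4 * E2 + 2 * U + 2 * E5 + 20, max x3 1, ?_⟩
  intro x hx N D G G1 K δ θ Ξ S c T p hN1 hN2 hD hDG hxDG hG1 hGG hGG1 hδ0 hδ1 hδG hδ hV hsm hT hTK
    hΞ hk
  have hx3' : x3 ≤ x := (le_max_left _ _).trans hx
  have hx' : 1 ≤ x := (le_max_right _ _).trans hx
  have hL := hx3 x hx3'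
  have hL15 : 15 ≤ Real.log x := ((le_max_left _ _).trans (le_max_left _ _)).trans hL
  have hLC : 4 * (2 * (1 / 2 + C) ^ 2 + 800000) ≤ Real.log x :=
    ((le_max_right _ _).trans (le_max_left _ _)).trans hL
  have hL2 := (le_max_right _ _).trans hL
  have hL0 : 0 < Real.log x := by linarith
  have hL1 : 1 ≤ Real.log x := by linarith
  have hδx : 0 ≤ δ * x := by positivity
  have hlow : 0 < Real.log x ^ (E2 + U + E5 + 5) * (1 + δ * x) := by positivity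
  have hxL : 4 * (2 * (1 / 2 + C) ^ 2 + 800000) * Real.log x ^ (E2 + 2 * U + 2 * E5 + 8) *
      (1 + (δ * x) ^ 2) ≤ Ξ ^ 2 := by
    calc 4 * (2 * (1 / 2 + C) ^ 2 + 800000) * Real.log x ^ (E2 + 2 * U + 2 * E5 + 8) *
          (1 + (δ * x) ^ 2)
        ≤ Real.log x * Real.log x ^ (E2 + 2 * U + 2 * E5 + 8) * (1 + δ * x) ^ 2 := by
          gcongr
          nlinarith
      _ = Real.log x ^ (E2 + 2 * U + 2 * E5 + 9) * (1 + δ * x) ^ 2 := by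
          rw [pow_succ (Real.log x) (E2 + 2 * U + 2 * E5 + 8)]; ring
      _ ≤ Real.log x ^ (2 * (E2 + U + E5 + 5)) * (1 + δ * x) ^ 2 := by
          apply mul_le_mul_of_nonneg_right _ (by positivity)
          exact pow_le_pow_right₀ hL1 (by omega)
      _ = (Real.log x ^ (E2 + U + E5 + 5) * (1 + δ * x)) ^ 2 := by
          rw [mul_pow, ← pow_mul, mul_comm 2 (E2 + U + E5 + 5)]
      _ ≤ Ξ ^ 2 := pow_le_pow_left₀ hlow.le hΞ 2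
  exact core_genS hC hC5 hcut h5 (hlow.trans_le hΞ) rfl hL15 hL2 hx' hxL hN1 hN2 hD hG1 hGG hDG hxDG
    hGG1 hδ0 hδ1 hδG hδ hV hsm hT hTK hk

end Pool.Agent.Y889.SK
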