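import Pool.Agent.H300R2.FB.OneClass
import Pool.Agent.Y889.SK.KSum
import Pool.Agent.Y889.SK.MajGen

/-!
Second moment over a box of polynomials: one major arc and one residue class, for arguments up to a
power of `log x`. Adaptation of `Pool/Agent/H300R2/FB/OneClass.lean`.
-/

set_option autoImplicit false

namespace Pool.Agent.Y889.SK

open Finset Polynomial Filter
open Pool.Agent.H469R2.NK (e norm_e e_add conj_e e_zero)
open Pool.Agent.H442R2.EHI (sum_e_range e_add_int Maj maj_rep Pairs card_pairs poly twist nint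
  norm_add_sq_le evt_log_pow evt_log_ge)
open Pool.Agent.H300R2.BH
open Pool.Agent.H300R2.FB
open Pool.Agent.H619R2.FB (pertQ)
open Pool.Agent.H619R2.FB9 (round_box)

/-- one pair `(q, b)` and one class modulo `q` -/
lemma one_classS (j : ℕ) (hj : 1 ≤ j) (E0 E1 E2 E5 U : ℕ) :
    ∃ E3 A0 x0 : ℕ, ∀ x : ℕ, x0 ≤ x →
    ∀ (D K K1 q r : ℕ) (δ θ : ℝ) (S : Finset ℤ) (c : ℤ → ℂ) (s : ℕ → ℝ) (H : Fin (j - 1) → ℕ),
    1 ≤ D → 2 * D * K ^ j ≤ x → (x : ℝ) ≤ D * (K : ℝ) ^ j * Real.log x ^ E0 → Real.log x ^ A0 ≤ K →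
    K1 ≤ K → (K : ℝ) ≤ K1 * Real.log x ^ E2 → 1 ≤ q → (q : ℝ) ≤ Real.log x ^ E1 →
    0 ≤ δ → δ * (K : ℝ) ^ j ≤ Real.log x ^ E5 → Real.log x ^ A0 * (1 + δ * x) ≤ (K : ℝ) ^ 2 →
    (∀ h ∈ S, |((h : ℝ) + θ) / ((16 * x + 1 : ℕ) : ℝ)| ≤ δ) →
    ((16 * x + 1 : ℕ) : ℝ) * ∑ h ∈ S, ‖c h‖ ^ 2 ≤ x * Real.log x ^ 2 →
    (∀ h ∈ S, |((h : ℝ) + θ) / ((16 * x + 1 : ℕ) : ℝ)| ≤ Real.log x ^ E3 / x →
      ((16 * x + 1 : ℕ) : ℝ) * ‖c h‖ ≤ x / Real.log x ^ (2 * E3)) →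
    (∀ k ∈ Ioc K1 K, |s k| ≤ (K : ℝ) ^ j / Real.log x ^ (2 * E5 + j * E2 + U + 8)) →
    (∀ i, (H i : ℝ) * Real.log x ≤ D * (K1 : ℝ) ^ (j - 1 - (i : ℕ))) →
    ∑ r' ∈ bx j H, ∑ d ∈ Ioc D (2 * D), ‖∑ k ∈ (Ioc K1 K).filter (fun k => k % q = r),
      poly (16 * x + 1) θ S c ((d : ℝ) * (k : ℝ) ^ j + tR j (fun i => (r' i : ℝ)) k + s k)‖ ^ 2 ≤
      ((bx j H).card : ℝ) * (x * ((K : ℝ) ^ 2 / (K : ℝ) ^ j) / Real.log x ^ U) := by
  obtain ⟨E4, A1, x1, hks⟩ := ksumS vdcPoly j hj E1 E2 (2 * (U + 2) + 2 * (E5 + 1) + 10 + 1)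
  obtain ⟨E3, x2, hmg⟩ := major_genS E0 (j * E2 + 1) E4 (E5 + 1) (U + 2)
  set B := 2 * E5 + j * E2 + U + 8 with hB
  have hev : ∀ᶠ x : ℕ in atTop, x1 ≤ x ∧ x2 ≤ x ∧ 3 ≤ x ∧ 100 * (j + 1) * 2 ^ j * 100 ≤ Real.log x := by
    filter_upwards [eventually_ge_atTop x1, eventually_ge_atTop x2, eventually_ge_atTop 3,
      evt_log_ge (100 * (j + 1) * 2 ^ j * 100)] with x h1 h2 h3 h4
    exact ⟨h1, h2, h3, h4⟩
  obtain ⟨x0, hx0⟩ := eventually_atTop.mp hev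
  refine ⟨E3, A1 + (B + E2 + 2) + (j * E2 + 1 + (U + 2) + (E5 + 1) + 5), x0,
    fun x hx D K K1 q r δ θ S c s H hD hDK hxDK hxK' hK1 hKK1 hq hqL hδ0 hδK hδK2 hδ hV
    hsm hs hH => ?_⟩
  obtain ⟨hx1, hx2, hx3, hLc⟩ := hx0 x hx
  set L := Real.log x with hLdef
  have h2j : (1:ℝ) ≤ 2 ^ j := one_le_pow₀ (by norm_num)
  have hjr : (0:ℝ) ≤ j := Nat.cast_nonneg _
  have hL : 10000 ≤ L := by nlinarith
  have hLj : 100 * ((j:ℝ) + 1) ≤ L := by nlinarith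
  have hL0 : 0 < L := by linarith
  have hL1 : 1 ≤ L := by linarith
  have hxr : (3:ℝ) ≤ x := by exact_mod_cast hx3
  have hx0' : (0:ℝ) < x := by linarith
  have hLp0 : ∀ n : ℕ, 0 < L ^ n := fun n => by positivity
  have hLp : ∀ n : ℕ, 1 ≤ L ^ n := fun n => one_le_pow₀ hL1
  have hLmono : ∀ m n : ℕ, m ≤ n → L ^ m ≤ L ^ n := fun m n h => pow_le_pow_right₀ hL1 h
  have hxK1 : L ^ A1 ≤ K := (hLmono _ _ (by omega)).trans hxK'
  have hxK : L ^ (B + E2 + 2) ≤ K := (hLmono _ _ (by omega)).trans hxK'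
  have hΞ : L ^ (j * E2 + 1 + (U + 2) + (E5 + 1) + 5) * (1 + δ * x) ≤ (K : ℝ) ^ 2 := by
    refine le_trans ?_ hδK2
    apply mul_le_mul_of_nonneg_right (hLmono _ _ (by omega))
    positivity
  have hK1r : (1:ℝ) ≤ K := (hLp _).trans hxK
  have hKpos : (0:ℝ) < K := by linarith
  have hK1n : 1 ≤ K := by exact_mod_cast hK1r
  have hKj : (0:ℝ) < (K:ℝ) ^ j := by positivity
  have hLK : L ^ (B + 2) ≤ K1 := by
    have h1 : L ^ (B + 2) * L ^ E2 ≤ K1 * L ^ E2 := by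
      calc L ^ (B + 2) * L ^ E2 = L ^ (B + E2 + 2) := by rw [← pow_add]; congr 1; ring
        _ ≤ K := hxK
        _ ≤ _ := hKK1
    exact le_of_mul_le_mul_right h1 (hLp0 _)
  have hK1rr : (1:ℝ) ≤ K1 := (hLp _).trans hLK
  have hK1pos : 1 ≤ K1 := by exact_mod_cast hK1rr
  have hK1p : (0:ℝ) < K1 := by linarith
  have hK1L : L ≤ (K1:ℝ) ^ j := by
    calc L = L ^ 1 := (pow_one L).symm
      _ ≤ L ^ (B + 2) := hLmono _ _ (by omega)
      _ ≤ K1 := hLK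
      _ ≤ (K1:ℝ) ^ j := le_self_pow₀ hK1rr (by omega)
  have hKx : K ≤ x := by
    calc K = K ^ 1 := (pow_one K).symm
      _ ≤ K ^ j := Nat.pow_le_pow_right hK1n hj
      _ ≤ (2 * D) * K ^ j := Nat.le_mul_of_pos_left _ (by omega)
      _ ≤ x := hDK
  have hDr : (1:ℝ) ≤ D := by exact_mod_cast hD
  have hD0 : (0:ℝ) < D := by linarith
  have hDKr : 2 * (D:ℝ) * (K:ℝ) ^ j ≤ x := by exact_mod_cast hDK
  set T0 : Finset ℕ := (Ioc K1 K).filter (fun k => k % q = r) with hT0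
  have hT0mem : ∀ k ∈ T0, K1 < k ∧ k ≤ K := by
    intro k hk
    rw [hT0, mem_filter, mem_Ioc] at hk
    exact hk.1
  have hT0card : T0.card ≤ K := by
    have h1 := card_le_card (filter_subset (fun k => k % q = r) (Ioc K1 K))
    rw [Nat.card_Ioc] at h1
    rw [hT0]; omega
  have hT0Icc : T0 ⊆ Icc 1 K := by
    intro k hk
    have := hT0mem k hk
    rw [mem_Icc]; omega
  -- sizes
  set G : ℕ := 2 * K ^ j with hG
  set G1 : ℕ := K1 ^ j / 2 with hG1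
  have hGr : (G : ℝ) = 2 * (K : ℝ) ^ j := by rw [hG]; push_cast; ring
  have hK1j2 : 2 ≤ K1 ^ j := by
    have : (2:ℝ) ≤ (K1:ℝ) ^ j := by linarith
    exact_mod_cast this
  have hG1pos : 1 ≤ G1 := by rw [hG1]; omega
  have hG1G : G1 ≤ G := by
    have h1 : K1 ^ j ≤ K ^ j := Nat.pow_le_pow_left hK1 j
    rw [hG1, hG]; omega
  have hG1le : (G1:ℝ) ≤ (K1:ℝ) ^ j / 2 := by
    have h1 : 2 * G1 ≤ K1 ^ j := by rw [hG1]; omega
    have h2 : 2 * (G1:ℝ) ≤ (K1:ℝ) ^ j := by exact_mod_cast h1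
    linarith
  have hG1ge : (K1:ℝ) ^ j ≤ 4 * G1 := by
    have h1 : K1 ^ j ≤ 4 * G1 := by rw [hG1]; omega
    exact_mod_cast h1
  have hKK1j : (K:ℝ) ^ j ≤ (K1:ℝ) ^ j * L ^ (j * E2) := by
    calc (K:ℝ) ^ j ≤ (K1 * L ^ E2) ^ j := by gcongr
      _ = _ := by rw [mul_pow, ← pow_mul, mul_comm E2 j]
  have hGG1 : (G : ℝ) ≤ G1 * L ^ (j * E2 + 1) := by
    rw [hGr]
    calc 2 * (K:ℝ) ^ j ≤ 2 * ((K1:ℝ) ^ j * L ^ (j * E2)) := by gcongr
      _ ≤ 2 * ((4 * G1) * L ^ (j * E2)) := by gcongr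
      _ = G1 * (L ^ (j * E2) * 8) := by ring
      _ ≤ G1 * (L ^ (j * E2) * L) := by gcongr; linarith
      _ = _ := by rw [pow_succ]
  have hδG : δ * G ≤ L ^ (E5 + 1) := by
    rw [hGr]
    calc δ * (2 * (K:ℝ) ^ j) = (δ * (K:ℝ) ^ j) * 2 := by ring
      _ ≤ L ^ E5 * L := by
        apply mul_le_mul hδK (by linarith) (by norm_num) (by positivity)
      _ = _ := by rw [pow_succ]
  have hKL : L ^ (E5 + 1) ≤ (K:ℝ) ^ j := by
    calc L ^ (E5 + 1) ≤ L ^ (B + E2 + 2) := hLmono _ _ (by omega)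
      _ ≤ K := hxK
      _ ≤ (K:ℝ) ^ j := le_self_pow₀ hK1r (by omega)
  have hδ1 : δ ≤ 1 := by
    have h1 : δ * (K:ℝ) ^ j ≤ 1 * (K:ℝ) ^ j := by
      rw [one_mul]
      exact hδK.trans ((hLmono _ _ (by omega)).trans hKL)
    exact le_of_mul_le_mul_right h1 (by positivity)
  -- the ray sums
  have hray : ∀ r' ∈ bx j H, ∑ d ∈ Ioc D (2 * D), ‖∑ k ∈ T0,
      poly (16 * x + 1) θ S c ((d : ℝ) * pw j (fun i => (r' i : ℝ) / D) k)‖ ^ 2 ≤
      x * ((K : ℝ) ^ 2 / (K : ℝ) ^ j) / L ^ (U + 2) := by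
    intro r' hr'
    have hb : ∀ i, |(fun i => (r' i : ℝ) / D) i| * L ≤ (K1 : ℝ) ^ (j - 1 - (i : ℕ)) := by
      intro i
      simp only []
      unfold bx at hr'
      rw [Fintype.mem_piFinset] at hr'
      have h1 := hr' i
      rw [mem_Icc] at h1
      have h2 : |(r' i : ℝ)| ≤ H i := by
        rw [abs_le]
        constructor
        · exact_mod_cast h1.1
        · exact_mod_cast h1.2
      rw [abs_div, abs_of_pos hD0, div_mul_eq_mul_div, div_le_iff₀ hD0]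
      calc |(r' i : ℝ)| * L ≤ H i * L := by gcongr
        _ ≤ D * (K1 : ℝ) ^ (j - 1 - (i : ℕ)) := hH i
        _ = _ := by ring
    have hp : ∀ k ∈ T0, (G1:ℝ) ≤ pw j (fun i => (r' i : ℝ) / D) k ∧
        pw j (fun i => (r' i : ℝ) / D) k ≤ G := by
      intro k hk
      obtain ⟨h1, h2⟩ := hT0mem k hk
      have h1' : (K1:ℝ) ≤ k := by exact_mod_cast h1.le
      have h2' : (k:ℝ) ≤ K := by exact_mod_cast h2
      have h3 := tR_abs j (fun i => (r' i : ℝ) / D) K1 k L hL0 hK1p.le h1' hb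
      have hk0 : (0:ℝ) < k := by linarith
      have hkj : (0:ℝ) < (k:ℝ) ^ j := by positivity
      have h4 : |tR j (fun i => (r' i : ℝ) / D) k| ≤ (k:ℝ) ^ j / 2 := by
        rw [le_div_iff₀ (by norm_num)]
        have h5 : |tR j (fun i => (r' i : ℝ) / D) k| * 2 * L ≤ (k:ℝ) ^ j * L := by
          calc |tR j (fun i => (r' i : ℝ) / D) k| * 2 * L
              = 2 * (|tR j (fun i => (r' i : ℝ) / D) k| * L) := by ring
            _ ≤ 2 * (j * (k:ℝ) ^ j) := by gcongr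
            _ = (k:ℝ) ^ j * (2 * j) := by ring
            _ ≤ (k:ℝ) ^ j * L := by gcongr; linarith
        exact le_of_mul_le_mul_right h5 hL0
      have h6 := abs_le.mp h4
      have h7 : (K1:ℝ) ^ j ≤ (k:ℝ) ^ j := by gcongr
      have h8 : (k:ℝ) ^ j ≤ (K:ℝ) ^ j := by gcongr
      unfold pw
      rw [hGr]
      constructor
      · linarith [h6.1]
      · linarith [h6.2]
    have hmain := hmg x hx2 (16 * x + 1) D G G1 K δ θ ((K : ℝ) ^ 2) S c T0 (fun k : ℕ => pw j (fun i => (r' i : ℝ) / D) k)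
      (by omega) (by omega) hD (by rw [hG]; calc D * (2 * K ^ j) = 2 * D * K ^ j := by ring
                                    _ ≤ x := hDK)
      (by
        rw [hGr]
        calc (x:ℝ) ≤ D * (K : ℝ) ^ j * L ^ E0 := hxDK
          _ ≤ D * (2 * (K : ℝ) ^ j) * L ^ E0 := by gcongr; linarith)
      hG1pos hG1G hGG1 hδ0 hδ1 hδG hδ hV hsm hp hT0card hΞ (by
        intro ξ h1 h2
        have h3 := hks x hx1 K K1 q r hxK1 hKx hK1 hKK1 hq hqL (fun i => (r' i : ℝ) / D) hb ξ h1 h2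
        refine h3.trans ?_
        rw [hGr, ← hLdef]
        set e0 := 2 * (U + 2) + 2 * (E5 + 1) + 10 with he0
        have hp0 := hLp0 e0
        rw [pow_succ L e0]
        calc ((K:ℝ) ^ 2 / (K:ℝ) ^ j) / (L ^ e0 * L) = ((K:ℝ) ^ 2 / (K:ℝ) ^ j) / L ^ e0 * (1 / L) := by
              field_simp
          _ ≤ ((K:ℝ) ^ 2 / (K:ℝ) ^ j) / L ^ e0 * (1 / 2) := by
              apply mul_le_mul_of_nonneg_left _ (by positivity)
              apply one_div_le_one_div_of_le (by norm_num) (by linarith)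
          _ = _ := by field_simp)
    refine hmain.trans ?_
    rw [hGr]
    apply div_le_div_of_nonneg_right _ (hLp0 _).le
    apply mul_le_mul_of_nonneg_left _ hx0'.le
    apply div_le_div_of_nonneg_left (by positivity) hKj
    linarith
  -- the perturbation
  set s1 : ℝ := 2 * ((K : ℝ) ^ j / L ^ B) with hs1
  have hs10 : 0 ≤ s1 := by positivity
  have hround : 2 * (j : ℝ) * (K : ℝ) ^ (j - 1) ≤ s1 := by
    have h1 : (K:ℝ) ^ (j - 1) * K = (K:ℝ) ^ j := by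
      rw [← pow_succ]; congr 1; omega
    have h2 : (j:ℝ) * L ^ B ≤ K := by
      calc (j:ℝ) * L ^ B ≤ L * L ^ B := by gcongr; linarith
        _ = L ^ (B + 1) := by rw [pow_succ]; ring
        _ ≤ L ^ (B + E2 + 2) := hLmono _ _ (by omega)
        _ ≤ K := hxK
    rw [hs1, mul_assoc]
    apply mul_le_mul_of_nonneg_left _ (by norm_num)
    rw [le_div_iff₀ (hLp0 _), ← h1]
    calc (j:ℝ) * (K:ℝ) ^ (j - 1) * L ^ B = (K:ℝ) ^ (j - 1) * (j * L ^ B) := by ring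
      _ ≤ (K:ℝ) ^ (j - 1) * K := by gcongr
  have hsT : ∀ k ∈ T0, |s k| ≤ s1 := by
    intro k hk
    refine (hs k (mem_of_mem_filter k hk)).trans ?_
    rw [hs1]
    have : 0 ≤ (K : ℝ) ^ j / L ^ B := by positivity
    linarith
  set W : ℝ := x * L ^ 2 with hW
  set Err : ℝ := x * ((K : ℝ) ^ 2 / (K : ℝ) ^ j) / L ^ (U + 2) with hErr
  have hs1K : s1 ≤ (K:ℝ) ^ j := by
    rw [hs1, ← mul_div_assoc, div_le_iff₀ (hLp0 _)]
    calc 2 * (K:ℝ) ^ j = (K:ℝ) ^ j * 2 := by ring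
      _ ≤ (K:ℝ) ^ j * L ^ B := by
        gcongr
        calc (2:ℝ) ≤ L := by linarith
          _ = L ^ 1 := (pow_one L).symm
          _ ≤ L ^ B := hLmono _ _ (by omega)
  set G1' : ℕ := K1 ^ j with hG1'
  have hG1'r : (G1' : ℝ) = (K1:ℝ) ^ j := by rw [hG1']; push_cast; ring
  set G' : ℕ := K ^ j with hG'
  have hG'r : (G' : ℝ) = (K:ℝ) ^ j := by rw [hG']; push_cast; ring
  have hs1G1 : s1 ≤ (K1:ℝ) ^ j := by
    rw [hs1, ← mul_div_assoc, div_le_iff₀ (hLp0 _)]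
    calc 2 * (K:ℝ) ^ j ≤ 2 * ((K1:ℝ) ^ j * L ^ (j * E2)) := by gcongr
      _ = (K1:ℝ) ^ j * (L ^ (j * E2) * 2) := by ring
      _ ≤ (K1:ℝ) ^ j * (L ^ (j * E2) * L) := by gcongr; linarith
      _ = (K1:ℝ) ^ j * L ^ (j * E2 + 1) := by rw [pow_succ]
      _ ≤ (K1:ℝ) ^ j * L ^ B := by
        gcongr
        omega
  have hpert : ∀ r' ∈ bx j H, ∀ s2 : ℕ → ℕ → ℝ, (∀ k ∈ T0, ∀ d ∈ Ioc D (2 * D), |s2 k d| ≤ s1) →
      ∑ d ∈ Ioc D (2 * D), ‖∑ k ∈ T0, (poly (16 * x + 1) θ S c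
        ((d : ℝ) * (k : ℝ) ^ j + tR j (fun i => (r' i : ℝ)) k + s2 k d) -
        poly (16 * x + 1) θ S c
        ((d : ℝ) * (k : ℝ) ^ j + tR j (fun i => (r' i : ℝ)) k))‖ ^ 2 ≤ Err := by
    intro r' _ s2 hs2
    have h1 := pertQ (16 * x + 1) D G' G1' K (by omega) T0 (fun k => (k : ℝ) ^ j)
      (fun k => tR j (fun i => (r' i : ℝ)) k) s2 s1 δ θ S c W hD
      (Nat.one_le_pow _ _ hK1pos) (fun k hk => by
        obtain ⟨h1, h2⟩ := hT0mem k hk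
        have h1' : (K1:ℝ) ≤ k := by exact_mod_cast h1.le
        have h2' : (k:ℝ) ≤ K := by exact_mod_cast h2
        rw [hG1'r, hG'r]
        constructor <;> gcongr) hs10 hs2 (by
        rw [hG'r]
        push_cast
        nlinarith) hδ0 hδ hV hT0card
    refine h1.trans ?_
    have h2 : 2 * s1 / (G1' : ℝ) + 2 ≤ 4 := by
      have : 2 * s1 / (G1' : ℝ) ≤ 2 := by
        rw [hG1'r, div_le_iff₀ (by positivity)]
        linarith
      linarith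
    have hδle : δ ≤ L ^ E5 / (K:ℝ) ^ j := by rw [le_div_iff₀ hKj]; exact hδK
    have hsplit : L ^ B = L ^ (2 * E5) * L ^ (U + 2) * L ^ (j * E2) * L ^ 6 := by
      rw [← pow_add, ← pow_add, ← pow_add, hB]; congr 1; ring
    have p1 := hLp0 (2 * E5)
    have p2 := hLp0 (U + 2)
    have p3 := hLp0 (j * E2)
    calc (K : ℝ) ^ 2 * (s1 * (2 * s1 / G1' + 2) * (40 * δ ^ 2 * W))
        ≤ (K : ℝ) ^ 2 * (s1 * 4 * (40 * (L ^ E5 / (K:ℝ) ^ j) ^ 2 * W)) := by gcongr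
      _ = Err * (320 / (L ^ (j * E2) * L ^ 4)) := by
          rw [hs1, hsplit, hErr, hW, pow_mul' L 2 E5]
          field_simp
          ring
      _ ≤ Err * 1 := by
          apply mul_le_mul_of_nonneg_left _ (by positivity)
          rw [div_le_one (by positivity)]
          have b1 : (320:ℝ) ≤ L ^ 4 := by
            calc (320:ℝ) ≤ L := by linarith
              _ = L ^ 1 := (pow_one L).symm
              _ ≤ L ^ 4 := hLmono _ _ (by norm_num)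
          have b2 := hLp (j * E2)
          nlinarith
      _ = Err := mul_one _
  have hrb := round_box j D K hD hK1n H T0 hT0Icc (poly (16 * x + 1) θ S c) s s1 Err hsT hround hpert
  refine hrb.trans ?_
  have hcard0 : (0:ℝ) ≤ ((bx j H).card : ℝ) := Nat.cast_nonneg _
  have h2j1 : (2:ℝ) ^ (j - 1) ≤ 2 ^ j := pow_le_pow_right₀ (by norm_num) (by omega)
  have hErr0 : 0 ≤ Err := by positivity
  calc 3 * 2 ^ (j - 1) * ∑ r' ∈ bx j H, ∑ d ∈ Ioc D (2 * D),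
        ‖∑ k ∈ T0, poly (16 * x + 1) θ S c ((d : ℝ) * pw j (fun i => (r' i : ℝ) / D) k)‖ ^ 2 +
        6 * ((bx j H).card : ℝ) * Err
      ≤ 3 * 2 ^ j * ∑ r' ∈ bx j H, Err + 6 * ((bx j H).card : ℝ) * Err := by
        gcongr with r' hr'
        exact hray r' hr'
    _ = ((bx j H).card : ℝ) * (Err * (3 * 2 ^ j + 6)) := by
        rw [sum_const, nsmul_eq_mul]; ring
    _ ≤ ((bx j H).card : ℝ) * (Err * L) := by
        gcongr
        nlinarith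
    _ ≤ ((bx j H).card : ℝ) * (x * ((K : ℝ) ^ 2 / (K : ℝ) ^ j) / L ^ U) := by
        apply mul_le_mul_of_nonneg_left _ hcard0
        have e1 : Err * L = (x * ((K : ℝ) ^ 2 / (K : ℝ) ^ j) / L ^ U) * (1 / L) := by
          rw [hErr, pow_add L U 2]
          field_simp
        rw [e1]
        apply mul_le_of_le_one_right (by positivity)
        rw [div_le_one hL0]; linarith

end Pool.Agent.Y889.SK
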