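import Pool.Agent.H300R2.FB.Full2
import Pool.Agent.Y889.SK.BHG

/-!
The mean error of the Bateman-Horn formula over all polynomials of height at most `H`, for lengths
`(log H)^B ≤ K ≤ H / (log H)^B`. Adaptation of `Pool/Agent/H300R2/FB/Full.lean` and `Full2.lean`.
-/

set_option autoImplicit false

namespace Pool.Agent.Y889.SK

open Finset Polynomial Filter
open Pool.Agent.H442R2.EHI (evt_log_pow evt_log_ge)
open Pool.Agent.H300R2.BH
open Pool.Agent.H300R2.FB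

/-- parameters: all conditions of the family theorems for the box of height `H` -/
lemma paramsS (j : ℕ) (hj : 1 ≤ j) (U n : ℕ) : ∃ H0 : ℕ, ∀ H : ℕ,
    H0 ≤ H → ∀ K M : ℕ, Real.log H ^ (n + U + 4) ≤ K → (K : ℝ) * Real.log H ^ (n + 1) ≤ H →
    (H : ℝ) / Real.log H ^ (U + 2) ≤ M → ∀ x : ℕ, x = 4 * H * K ^ j →
    H ≤ x ∧ Real.log H ≤ Real.log x ∧ (∀ m ≤ n, Real.log x ^ m ≤ Real.log H ^ (m + 1)) ∧
    Real.log x ≤ (j + 2) * Real.log H ∧ (x : ℝ) ^ ((1 : ℝ) / (j + 2)) ≤ ((2 * H + 1 : ℕ) : ℝ) ∧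
    ∀ D : ℕ, M ≤ D → D ≤ H → ∀ B ≤ n,
    BoxF j K D (2 * H + 1) 0 (-(H : ℤ) - 1) 1 x (Real.log x ^ B) ∧
    (x : ℝ) ≤ D * (K : ℝ) ^ j * Real.log x ^ (U + 3) ∧
    (K : ℝ) * Real.log x ^ B ≤ ((2 * H + 1 : ℕ) : ℝ) ∧
    (((2 * H + 1 : ℕ) : ℝ)) ≤ D * Real.log x ^ (U + 3) ∧ 2 * H + 1 ≤ x ∧
    (∀ i : Fin (j - 1), (H : ℝ) * Real.log x ^ B ≤ D * (K : ℝ) ^ (j - 1 - (i : ℕ))) := by
  have hev : ∀ᶠ H : ℕ in atTop, 4 ≤ H ∧ (j + 2 : ℝ) ^ n + 8 ≤ Real.log H := by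
    filter_upwards [eventually_ge_atTop 4, evt_log_ge ((j + 2 : ℝ) ^ n + 8)] with H h1 h2
    exact ⟨h1, h2⟩
  obtain ⟨H0, hH0⟩ := eventually_atTop.mp hev
  refine ⟨H0, fun H hH K M hK hKH hM x hx => ?_⟩
  obtain ⟨hH4, hL⟩ := hH0 H hH
  set L := Real.log H with hLdef
  have hj1 : (1:ℝ) ≤ j := by exact_mod_cast hj
  have hjn : (0:ℝ) ≤ (j + 2 : ℝ) ^ n := by positivity
  have hL8 : 8 ≤ L := by linarith
  have hL0 : 0 < L := by linarith
  have hL1 : 1 ≤ L := by linarith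
  have hLp0 : ∀ n : ℕ, 0 < L ^ n := fun n => by positivity
  have hLp : ∀ n : ℕ, 1 ≤ L ^ n := fun n => one_le_pow₀ hL1
  have hLmono : ∀ m n : ℕ, m ≤ n → L ^ m ≤ L ^ n := fun m n h => pow_le_pow_right₀ hL1 h
  have hHr : (4:ℝ) ≤ H := by exact_mod_cast hH4
  have hH0' : (0:ℝ) < H := by linarith
  have hLK : L ^ (n + U + 4) ≤ K := hK
  have hK1r : (1:ℝ) ≤ K := (hLp _).trans hLK
  have hK0 : (0:ℝ) < K := by linarith
  have hK1n : 1 ≤ K := by exact_mod_cast hK1r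
  have hKj1 : 1 ≤ K ^ j := Nat.one_le_pow _ _ (by omega)
  have hKjr : (1:ℝ) ≤ (K:ℝ) ^ j := one_le_pow₀ hK1r
  have hKjK : (K:ℝ) ≤ (K:ℝ) ^ j := le_self_pow₀ hK1r (by omega)
  have hxr : (x:ℝ) = 4 * H * (K:ℝ) ^ j := by rw [hx]; push_cast; ring
  have hHx : H ≤ x := by
    rw [hx]
    calc H ≤ 4 * H * 1 := by omega
      _ ≤ 4 * H * K ^ j := Nat.mul_le_mul_left _ hKj1
  have hHxr : (H:ℝ) ≤ x := by exact_mod_cast hHx
  have hx0 : (0:ℝ) < x := by linarith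
  have hKH' : (K:ℝ) ≤ H := by
    calc (K:ℝ) ≤ K * L ^ (n + 1) := le_mul_of_one_le_right hK0.le (hLp _)
      _ ≤ H := hKH
  have hxH : (x:ℝ) ≤ (H:ℝ) ^ (j + 2) := by
    rw [hxr]
    calc 4 * (H:ℝ) * (K:ℝ) ^ j ≤ H * H * (H:ℝ) ^ j := by gcongr
      _ = (H:ℝ) ^ (j + 2) := by ring
  have hLx : L ≤ Real.log x := Real.log_le_log hH0' hHxr
  have hLx0 : 0 < Real.log x := by linarith
  have hLx1 : 1 ≤ Real.log x := by linarith
  have hLx2 : Real.log x ≤ (j + 2) * L := by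
    calc Real.log x ≤ Real.log ((H:ℝ) ^ (j + 2)) := Real.log_le_log hx0 hxH
      _ = (j + 2) * L := by rw [Real.log_pow]; push_cast; ring
  have hpow : ∀ m ≤ n, Real.log x ^ m ≤ L ^ (m + 1) := by
    intro m hm
    calc Real.log x ^ m ≤ ((j + 2) * L) ^ m := by gcongr
      _ = (j + 2 : ℝ) ^ m * L ^ m := mul_pow _ _ _
      _ ≤ L * L ^ m := by
          gcongr
          calc (j + 2 : ℝ) ^ m ≤ (j + 2 : ℝ) ^ n := pow_le_pow_right₀ (by linarith) hm
            _ ≤ L := by linarith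
      _ = L ^ (m + 1) := by ring
  refine ⟨hHx, hLx, hpow, hLx2, ?_, fun D hMD hDH B hB => ?_⟩
  · calc (x:ℝ) ^ ((1 : ℝ) / (j + 2)) ≤ ((H:ℝ) ^ (j + 2)) ^ ((1 : ℝ) / (j + 2)) := by
          gcongr
      _ = (H:ℝ) := by
          rw [← Real.rpow_natCast, ← Real.rpow_mul hH0'.le]
          push_cast
          rw [mul_one_div_cancel (by positivity), Real.rpow_one]
      _ ≤ ((2 * H + 1 : ℕ) : ℝ) := by push_cast; linarith
  · have hMD' : (M:ℝ) ≤ D := by exact_mod_cast hMD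
    have hDH' : (D:ℝ) ≤ H := by exact_mod_cast hDH
    have hHD : (H:ℝ) ≤ D * L ^ (U + 2) := by
      rw [← div_le_iff₀ (hLp0 _)]
      exact hM.trans hMD'
    have hD0 : (0:ℝ) < D := by
      by_contra hneg
      push Not at hneg
      have := mul_nonpos_of_nonpos_of_nonneg hneg (hLp0 (U + 2)).le
      linarith
    have hxB := hpow B hB
    have hxBn : Real.log x ^ B ≤ L ^ (n + 1) := hxB.trans (hLmono _ _ (by omega))
    have hxB0 : 0 < Real.log x ^ B := by positivity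
    have hHLx : 4 * (H:ℝ) ≤ D * Real.log x ^ (U + 3) := by
      calc 4 * (H:ℝ) ≤ L * (D * L ^ (U + 2)) := by
            apply mul_le_mul (by linarith) hHD hH0'.le hL0.le
        _ = D * L ^ (U + 3) := by ring
        _ ≤ _ := by gcongr
    refine ⟨Or.inl ⟨rfl, ?_, ?_⟩, ?_, ?_, ?_, ?_, ?_⟩
    · push_cast
      calc -((0:ℝ) + (-(H:ℝ) - 1)) * Real.log x ^ B = (H + 1) * Real.log x ^ B := by ring
        _ ≤ (L * H) * L ^ (n + 1) := by
            apply mul_le_mul _ hxBn hxB0.le (by positivity)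
            nlinarith
        _ ≤ (L * (D * L ^ (U + 2))) * L ^ (n + 1) := by gcongr
        _ = D * L ^ (n + U + 4) := by ring
        _ ≤ D * (K:ℝ) ^ j := by
            gcongr
            exact hLK.trans hKjK
    · rw [hxr]
      push_cast
      have h1 : 3 * (D:ℝ) * (K:ℝ) ^ j ≤ 3 * H * (K:ℝ) ^ j := by gcongr
      have h2 : (H:ℝ) ≤ H * (K:ℝ) ^ j := le_mul_of_one_le_right hH0'.le hKjr
      linarith
    · calc (x:ℝ) = 4 * (H:ℝ) * (K:ℝ) ^ j := hxr
        _ ≤ (D * Real.log x ^ (U + 3)) * (K:ℝ) ^ j := by gcongr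
        _ = D * (K:ℝ) ^ j * Real.log x ^ (U + 3) := by ring
    · push_cast
      calc (K:ℝ) * Real.log x ^ B ≤ K * L ^ (n + 1) := by gcongr
        _ ≤ H := hKH
        _ ≤ 2 * H + 1 := by linarith
    · push_cast
      linarith
    · have : 2 * H + 1 ≤ 4 * H * 1 := by omega
      rw [hx]
      exact this.trans (Nat.mul_le_mul_left _ hKj1)
    · intro i
      have hi := i.2
      calc (H:ℝ) * Real.log x ^ B ≤ (D * L ^ (U + 2)) * L ^ (n + 1) := by gcongr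
        _ = D * L ^ (n + U + 3) := by ring
        _ ≤ D * (K:ℝ) := by
            gcongr
            exact (hLmono _ _ (by omega)).trans hLK
        _ ≤ D * (K : ℝ) ^ (j - 1 - (i : ℕ)) := by
            gcongr
            exact le_self_pow₀ hK1r (by omega)


/-- the mean error over all polynomials of height at most `H`, for `(log H)^B ≤ K ≤ H / (log H)^B` -/
theorem mean_fullS (j : ℕ) (hj : 1 ≤ j) (U : ℕ) : ∃ E1 : ℕ, ∀ E : ℕ, E1 ≤ E →
    ∃ B H0 : ℕ, ∀ H : ℕ, H0 ≤ H → ∀ K : ℕ, Real.log H ^ B ≤ K → (K : ℝ) * Real.log H ^ B ≤ H →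
    ∑ r ∈ bx j (fun _ => H), ∑ a ∈ Ioc 0 (0 + (2 * H + 1)), ∑ d ∈ Ioc 0 H,
      |pv (FP j H r a d) K - SS ⌊Real.log H ^ E⌋₊ (FP j H r a d) * lF (FP j H r a d) K| ≤
      ((bx j (fun _ => H)).card : ℝ) * ((2 * H + 1 : ℕ) : ℝ) * H * K / Real.log H ^ U := by
  classical
  obtain ⟨E1, hbh⟩ := bhFS j hj (1 / (j + 2)) (by positivity) (U + 3) (U + 3) 0 (U + 2)
  refine ⟨E1 + 1, fun E hE => ?_⟩
  obtain ⟨B1, A0, x1, hb⟩ := hbh E (by omega)
  set n := max (max B1 E1) A0 with hn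
  obtain ⟨H1, hpar⟩ := paramsS j hj U n
  obtain ⟨H2, hSS⟩ := SS_small (E - 1)
  rw [show E - 1 + 1 = E by omega] at hSS
  have hev : ∀ᶠ H : ℕ in atTop, H1 ≤ H ∧ H2 ≤ H ∧ x1 ≤ H ∧ 8 ≤ Real.log H ∧
      Real.log H ^ (U + 2) ≤ (H:ℝ) ^ (1:ℝ) ∧ 1 ≤ H := by
    filter_upwards [eventually_ge_atTop H1, eventually_ge_atTop H2, eventually_ge_atTop x1,
      evt_log_ge 8, evt_log_pow (U + 2) 1 (by norm_num), eventually_ge_atTop 1]
      with H h1 h2 h3 h4 h5 h6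
    exact ⟨h1, h2, h3, h4, h5, h6⟩
  obtain ⟨H0, hH0⟩ := eventually_atTop.mp hev
  refine ⟨n + U + 4, H0, fun H hH K hK hKH' => ?_⟩
  obtain ⟨hH1, hH2, hHx1, hL8, hLH, hHn⟩ := hH0 H hH
  rw [Real.rpow_one] at hLH
  set L := Real.log H with hLdef
  have hL0 : 0 < L := by linarith
  have hL1 : 1 ≤ L := by linarith
  have hLp0 : ∀ n : ℕ, 0 < L ^ n := fun n => by positivity
  have hLp : ∀ n : ℕ, 1 ≤ L ^ n := fun n => one_le_pow₀ hL1
  have hLmono : ∀ m n : ℕ, m ≤ n → L ^ m ≤ L ^ n := fun m n h => pow_le_pow_right₀ hL1 h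
  have hHr : (1:ℝ) ≤ H := by exact_mod_cast hHn
  have hH0' : (0:ℝ) < H := by linarith
  have hK0 : (0:ℝ) < K := lt_of_lt_of_le (hLp0 _) hK
  have hKH : (K : ℝ) * L ^ (n + 1) ≤ H := by
    refine le_trans ?_ hKH'
    apply mul_le_mul_of_nonneg_left (hLmono _ _ (by omega)) hK0.le
  set M := ⌈(H:ℝ) / L ^ (U + 2)⌉₊ with hM
  have hMge : (H:ℝ) / L ^ (U + 2) ≤ M := Nat.le_ceil _
  have hMle : (M:ℝ) ≤ 2 * (H / L ^ (U + 2)) := by
    have h1 : (M:ℝ) < H / L ^ (U + 2) + 1 := Nat.ceil_lt_add_one (by positivity)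
    have h2 : 1 ≤ (H:ℝ) / L ^ (U + 2) := by rw [le_div_iff₀ (hLp0 _), one_mul]; exact hLH
    linarith
  have hM1 : 1 ≤ M := by
    have h2 : 0 < (H:ℝ) / L ^ (U + 2) := by positivity
    exact Nat.one_le_iff_ne_zero.mpr (by
      intro h0
      rw [h0] at hMge
      simp only [Nat.cast_zero] at hMge
      linarith)
  obtain ⟨hHx, hLx, hpow, hLx2, hxA, hp⟩ := hpar H hH1 K M hK hKH hMge (4 * H * K ^ j) rfl
  set x := 4 * H * K ^ j with hx
  have hxK : Real.log x ^ A0 ≤ K := by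
    refine (hpow A0 (le_max_right _ _)).trans (le_trans (hLmono _ _ ?_) hK)
    have : A0 ≤ n := le_max_right _ _
    omega
  set z := ⌊L ^ E⌋₊ with hz
  obtain ⟨hz3, hSSz⟩ := hSS H hH2
  set bc : ℝ := ((bx j (fun _ => H)).card : ℝ) with hbc
  have hbc0 : 0 ≤ bc := Nat.cast_nonneg _
  have hAc : ((Ioc 0 (0 + (2 * H + 1))).card : ℝ) = ((2 * H + 1 : ℕ) : ℝ) := by
    rw [Nat.card_Ioc]; simp
  have hmain := dyad_box j H M hM1 (bx j (fun _ => H)) (Ioc 0 (0 + (2 * H + 1)))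
    (fun r a d => |pv (FP j H r a d) K - SS z (FP j H r a d) * lF (FP j H r a d) K|)
    (fun r a d => abs_nonneg _) (3 * L * K) (bc * ((2 * H + 1 : ℕ) : ℝ) * K / L ^ (U + 2))
    (by
      intro r _ a _ d _
      obtain ⟨h1, h2⟩ := pv_bounds (FP j H r a d) K
      obtain ⟨h3, h4⟩ := lF_bounds (FP j H r a d) K
      obtain ⟨h5, h6⟩ := hSSz (FP j H r a d)
      have h7 : SS z (FP j H r a d) * lF (FP j H r a d) K ≤ L * (2 * K) :=
        mul_le_mul h6 h4 h3 hL0.le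
      have h8 : 0 ≤ SS z (FP j H r a d) * lF (FP j H r a d) K := mul_nonneg h5 h3
      have h9 : (K:ℝ) ≤ L * K := le_mul_of_one_le_left hK0.le hL1
      rw [abs_le]
      constructor <;> linarith)
    (by positivity)
    (by
      intro D hMD hDH
      obtain ⟨p1, p2, p3, p4, p5, p6⟩ := hp D hMD hDH B1 ((le_max_left _ _).trans (le_max_left _ _))
      have h1 := hb x (hHx1.trans hHx) z (Nat.floor_le_floor (by
          calc Real.log x ^ E1 ≤ L ^ (E1 + 1) := hpow E1 ((le_max_right _ _).trans (le_max_left _ _))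
            _ ≤ L ^ E := hLmono _ _ hE)) (by
          calc (z:ℝ) ≤ L ^ E := Nat.floor_le (by positivity)
            _ ≤ Real.log x ^ E := by gcongr) K D (2 * H + 1) (2 * H + 1) 0 0 (-(H:ℤ) - 1)
          (fun _ => H) 1 (by rw [natDegree_zero]; omega) p1 p2 hxK hxA p3 le_rfl (fun _ => le_rfl) p4
          (by
            rw [pow_zero, mul_one]
            have : D ≤ 2 * H + 1 := by omega
            exact_mod_cast this) p5
          (by
            intro k _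
            simp only [eval_zero, Int.cast_zero, abs_zero]
            have : 0 < Real.log x := by linarith
            positivity) p6
      refine h1.trans ?_
      have h2 : (0:ℝ) < Real.log x := by linarith
      calc bc * (((2 * H + 1 : ℕ) : ℝ) * D * K / Real.log x ^ (U + 2))
          ≤ bc * (((2 * H + 1 : ℕ) : ℝ) * D * K / L ^ (U + 2)) := by gcongr
        _ = _ := by ring)
  refine hmain.trans ?_
  rw [hAc]
  set AH : ℝ := ((2 * H + 1 : ℕ) : ℝ) with hAH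
  have hAH0 : 0 ≤ AH := Nat.cast_nonneg _
  calc bc * AH * M * (3 * L * K) + 2 * (bc * AH * K / L ^ (U + 2)) * H
      ≤ bc * AH * (2 * (H / L ^ (U + 2))) * (3 * L * K) + 2 * (bc * AH * K / L ^ (U + 2)) * H := by
        gcongr
    _ = (bc * AH * H * K / L ^ U) * (6 / L + 2 / L ^ 2) := by
        rw [pow_add]
        field_simp
        ring
    _ ≤ (bc * AH * H * K / L ^ U) * 1 := by
        apply mul_le_mul_of_nonneg_left _ (by positivity)
        have h1 : 6 / L ≤ 6 / 8 := div_le_div_of_nonneg_left (by norm_num) (by norm_num) hL8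
        have h2 : 2 / L ^ 2 ≤ 2 / 8 := div_le_div_of_nonneg_left (by norm_num) (by norm_num) (by nlinarith)
        linarith
    _ = _ := mul_one _

end Pool.Agent.Y889.SK
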